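import Mathlib
import Pool.Agent.H.MP_677ad5_pr.A

set_option autoImplicit false
open Finset Filter Topology

namespace Pool.Agent.Results.MP_677ad5_pr.Larger

/-- the `n`-cube -/
def Q (n : ℕ) : SimpleGraph (Fin n → Bool) where
  Adj x y := hammingDist x y = 1
  symm := ⟨fun x y h => by rwa [hammingDist_comm]⟩
  loopless := ⟨fun x h => by simp at h⟩

/-- the spanning subgraph of open edges -/
def g {n : ℕ} (ω : Sym2 (Fin n → Bool) → Bool) : SimpleGraph (Fin n → Bool) :=
  Q n ⊓ SimpleGraph.fromEdgeSet {e | ω e = true}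

open Classical in
/-- probability under independent `p`-coins -/
noncomputable def pr {n : ℕ} (p : ℝ) (A : Set (Sym2 (Fin n → Bool) → Bool)) : ℝ :=
  ∑ ω, if ω ∈ A then ∏ e, (if ω e then p else 1 - p) else 0

/-- `m_p` -/
noncomputable def mp (p : ℝ) : ℕ := ⌊-1 / Real.logb 2 (1 - p)⌋₊

theorem result :
    (∀ p : ℕ → ℝ, (∀ n, 0 < p n) → Tendsto (fun n : ℕ => p n * n) atTop atTop →
      (∀ n, p n ^ 2 * n ≤ 1) →
      Tendsto (fun n => pr (p n) {ω : Sym2 (Fin n → Bool) → Bool |
        ∃ C : (g ω).ConnectedComponent, 2 ^ n < 2 * C.supp.ncard ∧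
          ∀ D : (g ω).ConnectedComponent, D ≠ C → D.supp.ncard ≤ mp (p n)}) atTop (𝓝 0)) ∧
    ∃ p : ℕ → ℝ, (∀ n, 0 < p n ∧ p n ≤ 1) ∧ Tendsto p atTop (𝓝 0) ∧
      Tendsto (fun n : ℕ => p n * n) atTop atTop ∧ ∀ n, p n ^ 2 * n ≤ 1 := by
  constructor
  · intro p h0 hi h1
    have t1 : Tendsto (fun n : ℕ => (n:ℝ) ^ 3 * Real.exp (-(n / 2))) atTop (𝓝 0) := by
      have := ((Real.tendsto_pow_mul_exp_neg_atTop_nhds_zero 3).comp
        (tendsto_natCast_atTop_atTop.atTop_div_const two_pos)).const_mul 8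
      rw [mul_zero] at this
      refine this.congr fun n => ?_
      simp only [Function.comp]; ring
    have t2 := t1.add (hi.const_div_atTop (Real.exp 12))
    rw [add_zero] at t2
    refine squeeze_zero' ?_ ?_ t2
    · filter_upwards [hi.eventually_ge_atTop (Real.exp 12 + 400)] with n hn
      have := H.MP_677ad5_pr.numer (h0 n) (h1 n) hn rfl
      exact sum_nonneg fun ω _ => by
        split_ifs; exacts [H.MP_677ad5_pr.wt0 (h0 n).le this.1.le ω, le_rfl]
    · filter_upwards [hi.eventually_ge_atTop (Real.exp 12 + 400), eventually_ge_atTop 1] with n hn hn1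
      obtain ⟨a1, a2, a3, a4⟩ := H.MP_677ad5_pr.numer (m := mp (p n)) (h0 n) (h1 n) hn rfl
      refine le_trans ?_ ((H.MP_677ad5_pr.second (h0 n) a1 (by omega)).trans (add_le_add a3 a4))
      refine H.MP_677ad5_pr.pr_mono (h0 n).le a1.le ?_
      rintro ω ⟨C, hC, hD⟩ hω
      obtain ⟨a, ha⟩ := Set.mem_iUnion.1 hω
      have e : ((g ω).connectedComponentMk a.1).supp = H.MP_677ad5_pr.S a := by
        ext y
        rw [SimpleGraph.ConnectedComponent.mem_supp_iff, SimpleGraph.ConnectedComponent.eq,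
          mem_coe, ← H.MP_677ad5_pr.reach ha]
        exact ⟨fun h => h.symm, fun h => h.symm⟩
      have e2 : ((g ω).connectedComponentMk a.1).supp.ncard = mp (p n) + 1 := by
        rw [e, Set.ncard_coe_finset, H.MP_677ad5_pr.card_S]
      by_cases h : (g ω).connectedComponentMk a.1 = C
      · rw [← h, e2] at hC
        obtain ⟨k, rfl⟩ := Nat.exists_eq_add_of_le' hn1
        have := Nat.lt_two_pow_self (n := k)
        rw [pow_succ] at hC; omega
      · have := hD _ h; omega
  · have hs : Tendsto (fun n : ℕ => √((n:ℝ) + 1)) atTop atTop :=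
      Real.tendsto_sqrt_atTop.comp (tendsto_atTop_add_const_right _ _ tendsto_natCast_atTop_atTop)
    have h1 : ∀ n : ℕ, 1 ≤ √((n:ℝ) + 1) := fun n => Real.one_le_sqrt.2 (by simp)
    have h2 : ∀ n : ℕ, √((n:ℝ) + 1) * √((n:ℝ) + 1) = n + 1 := fun n =>
      Real.mul_self_sqrt (by positivity)
    refine ⟨fun n => (√((n:ℝ) + 1))⁻¹, fun n => ⟨by positivity, inv_le_one_of_one_le₀ (h1 n)⟩,
      hs.inv_tendsto_atTop, ?_, fun n => ?_⟩
    · refine tendsto_atTop_mono (fun n => ?_) (tendsto_atTop_add_const_right _ (-1) hs)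
      rw [inv_mul_eq_div, le_div_iff₀ (by positivity)]
      nlinarith [h1 n, h2 n]
    · rw [inv_pow, Real.sq_sqrt (by positivity), inv_mul_eq_div, div_le_one (by positivity)]
      linarith

end Pool.Agent.Results.MP_677ad5_pr.Larger
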